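import Pool.Agent.Helper29.H2.St1
import Pool.Agent.Helper80.BG.M_CL2

/-!
# Project H2, module C2: sums of squares of marginals, `N` cells per unit
-/

set_option autoImplicit false

noncomputable section

namespace Pool.Agent.Helper29.H2

open Finset MeasureTheory
open Pool.Agent.Helper90.MT (DD piDD SW)
open Pool.Agent.Helper27.BG

section cells

variable {ι : Type} [Fintype ι] [DecidableEq ι]

/-- the cell of a point -/
private def c2P (N : ℕ) (m : ι) (u : Option ι → ℝ) : (ι → ℕ) × ℕ × ℕ × ℕ :=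
  (fun h => ⌊(N : ℝ) * u (some h)⌋₊, ⌊(N : ℝ) * u none⌋₊,
    ⌊(N : ℝ) * ∑ h, u (some h)⌋₊, ⌊(N : ℝ) * (∑ h ∈ univ.erase m, u (some h) + u none)⌋₊)

/-- the cell with a given index -/
private def c2C (N : ℕ) (m : ι) (p : (ι → ℕ) × ℕ × ℕ × ℕ) : Set (Option ι → ℝ) :=
  c2 N m p.1 p.2.1 p.2.2.1 p.2.2.2

private theorem c2_mem (N : ℕ) (m : ι) (p : (ι → ℕ) × ℕ × ℕ × ℕ) (u : Option ι → ℝ)
    (hu : ∀ o, 0 ≤ u o) : u ∈ c2C N m p ↔ c2P N m u = p := by
  obtain ⟨i, i', t1, t2⟩ := p
  unfold c2C c2 c2P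
  simp only [Set.mem_setOf_eq, Prod.mk.injEq]
  constructor
  · rintro ⟨-, h1, h2, h4, h5⟩
    exact ⟨funext h1, h2, h4, h5⟩
  · rintro ⟨h1, h2, h4, h5⟩
    exact ⟨hu, fun h => congrFun h1 h, h2, h4, h5⟩

private theorem c2_meas (N : ℕ) (m : ι) (p : (ι → ℕ) × ℕ × ℕ × ℕ) : MeasurableSet (c2C N m p) := by
  obtain ⟨i, i', t1, t2⟩ := p
  have h1 : MeasurableSet {u : Option ι → ℝ | ∀ h, 0 ≤ u h} := by
    rw [Set.setOf_forall]
    exact MeasurableSet.iInter fun h => measurableSet_le measurable_const (measurable_pi_apply h)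
  have hfl : ∀ (g : (Option ι → ℝ) → ℝ) (n : ℕ), Measurable g →
      MeasurableSet {u : Option ι → ℝ | ⌊(N : ℝ) * g u⌋₊ = n} := by
    intro g n hg
    exact ((hg.const_mul (N : ℝ)).nat_floor) (measurableSet_singleton n)
  have h2 : MeasurableSet {u : Option ι → ℝ | ∀ h : ι, ⌊(N : ℝ) * u (some h)⌋₊ = i h} := by
    rw [Set.setOf_forall]
    exact MeasurableSet.iInter fun h => hfl (fun u => u (some h)) (i h)
      (measurable_pi_apply _)
  have h3 := hfl (fun u => u none) i' (measurable_pi_apply _)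
  have hs : ∀ F : Finset ι, Measurable fun u : Option ι → ℝ => ∑ h ∈ F, u (some h) := fun F =>
    Finset.measurable_sum F fun h _ => measurable_pi_apply (some h)
  have h5 := hfl (fun u => ∑ h, u (some h)) t1 (hs _)
  have h6 := hfl (fun u => ∑ h ∈ univ.erase m, u (some h) + u none) t2
    ((hs _).add (measurable_pi_apply _))
  exact h1.inter (h2.inter (h3.inter (h5.inter h6)))

private theorem c2_ord (N : ℕ) (m : ι) (p : (ι → ℕ) × ℕ × ℕ × ℕ) : (c2C N m p).OrdConnected := by
  obtain ⟨i, i', t1, t2⟩ := p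
  refine ⟨fun u hu v hv w hw => ?_⟩
  obtain ⟨a1, a2, a3, a5, a6⟩ := hu
  obtain ⟨-, b2, b3, b5, b6⟩ := hv
  have hN : (0 : ℝ) ≤ N := Nat.cast_nonneg N
  have key : ∀ (x y z : ℝ) (n : ℕ), x ≤ y → y ≤ z → ⌊(N : ℝ) * x⌋₊ = n → ⌊(N : ℝ) * z⌋₊ = n →
      ⌊(N : ℝ) * y⌋₊ = n := by
    intro x y z n h1 h2 h3 h4
    apply le_antisymm
    · rw [← h4]
      exact Nat.floor_mono (mul_le_mul_of_nonneg_left h2 hN)
    · rw [← h3]
      exact Nat.floor_mono (mul_le_mul_of_nonneg_left h1 hN)
  have hs1 : ∀ F : Finset ι, ∑ h ∈ F, u (some h) ≤ ∑ h ∈ F, w (some h) := fun F =>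
    Finset.sum_le_sum fun h _ => hw.1 _
  have hs2 : ∀ F : Finset ι, ∑ h ∈ F, w (some h) ≤ ∑ h ∈ F, v (some h) := fun F =>
    Finset.sum_le_sum fun h _ => hw.2 _
  refine ⟨fun h => (a1 h).trans (hw.1 h), fun h => key _ _ _ _ (hw.1 _) (hw.2 _) (a2 h) (b2 h),
    key _ _ _ _ (hw.1 _) (hw.2 _) a3 b3,
    key _ _ _ _ (hs1 _) (hs2 _) a5 b5,
    key _ _ _ _ (add_le_add (hs1 _) (hw.1 _)) (add_le_add (hs2 _) (hw.2 _)) a6 b6⟩

private theorem c2_section (N : ℕ) (m : ι) (p : (ι → ℕ) × ℕ × ℕ × ℕ) (h : Option ι)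
    (x : Option ι → ℝ) : {s : ℝ | Function.update x h s ∈ c2C N m p}.OrdConnected := by
  have hmono : Monotone fun s : ℝ => Function.update x h s := by
    intro s s' hss o
    by_cases ho : o = h
    · subst ho
      simp only [Function.update_self]
      exact hss
    · simp only [Function.update_of_ne ho]
      exact le_rfl
  exact (c2_ord N m p).preimage_mono hmono

private theorem c2_sub (N : ℕ) (hN : 0 < N) (m : ι) (p : (ι → ℕ) × ℕ × ℕ × ℕ)
    (h1 : ∀ h, p.1 h < N) (h2 : p.2.1 < N) (u : Option ι → ℝ) (hu : u ∈ c2C N m p)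
    (o : Option ι) : u o ∈ Set.Ico (0 : ℝ) 2 := by
  obtain ⟨i, i', t1, t2⟩ := p
  obtain ⟨a1, a2, a3, -, -⟩ := hu
  refine ⟨a1 o, ?_⟩
  have hN' : (0 : ℝ) < N := by exact_mod_cast hN
  have key : ∀ (x : ℝ) (n : ℕ), ⌊(N : ℝ) * x⌋₊ = n → n < N → x < 2 := by
    intro x n hx hn
    have h3 := Nat.lt_floor_add_one ((N : ℝ) * x)
    rw [hx] at h3
    have h4 : (n : ℝ) + 1 ≤ N := by exact_mod_cast hn
    nlinarith
  cases o with
  | none => exact key _ _ a3 h2
  | some h => exact key _ _ (a2 h) (h1 h)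

end cells

section algebra

variable {ι : Type} [Fintype ι] [DecidableEq ι]

/-- the coefficient of a cell -/
private def c2K (m : ι) (Γ : (ι → ℕ) → ℕ → ℝ) (p : (ι → ℕ) × ℕ × ℕ × ℕ) : ℝ :=
  Γ p.1 p.2.2.1 * Γ (Function.update p.1 m p.2.1) p.2.2.2

/-- the set of the indices of the cells -/
private def c2I (ι : Type) [Fintype ι] [DecidableEq ι] (T : ℕ) : Finset ((ι → ℕ) × ℕ × ℕ × ℕ) :=
  Fintype.piFinset (fun _ : ι => range T) ×ˢ (range T ×ˢ (range T ×ˢ range T))

/-- decomposition into cells -/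
private theorem c2_decomp (N : ℕ) (m : ι) (Γ : (ι → ℕ) → ℕ → ℝ)
    (hΓ : ∀ i t, Γ i t ≠ 0 → (∀ h, i h < N) ∧ t < N) (u : Option ι → ℝ) (hu : ∀ o, 0 ≤ u o) :
    (open Classical in
    ∑ p ∈ c2I ι N, c2K m Γ p * (if u ∈ c2C N m p then (1 : ℝ) else 0)) =
      c2K m Γ (c2P N m u) := by
  classical
  have h1 : ∀ p ∈ c2I ι N, c2K m Γ p * (if u ∈ c2C N m p then (1 : ℝ) else 0) =
      if c2P N m u = p then c2K m Γ p else 0 := by
    intro p _
    by_cases h : c2P N m u = p
    · rw [if_pos h, if_pos ((c2_mem N m p u hu).2 h), mul_one]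
    · rw [if_neg h, if_neg (fun h' => h ((c2_mem N m p u hu).1 h')), mul_zero]
  rw [Finset.sum_congr rfl h1, Finset.sum_ite_eq]
  by_cases h : c2P N m u ∈ c2I ι N
  · rw [if_pos h]
  · rw [if_neg h]
    by_contra hne
    apply h
    have h2 : c2K m Γ (c2P N m u) ≠ 0 := fun h' => hne h'.symm
    unfold c2K at h2
    have h3 : Γ (c2P N m u).1 (c2P N m u).2.2.1 ≠ 0 := by
      intro h'
      apply h2
      rw [h', zero_mul]
    have h4 : Γ (Function.update (c2P N m u).1 m (c2P N m u).2.1) (c2P N m u).2.2.2 ≠ 0 := by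
      intro h'
      apply h2
      rw [h', mul_zero]
    obtain ⟨a1, a2⟩ := hΓ _ _ h3
    obtain ⟨b1, b2⟩ := hΓ _ _ h4
    have b3 := b1 m
    rw [Function.update_self] at b3
    unfold c2I
    simp only [Finset.mem_product, Fintype.mem_piFinset, Finset.mem_range]
    exact ⟨a1, b3, a2, b2⟩

/-- the value on tuples -/
private theorem c2_value (N : ℕ) (m : ι) (Γ : (ι → ℕ) → ℕ → ℝ) (M : ℕ) (x : ι → ℕ) (c c' : ℕ) :
    c2K m Γ (c2P N m (fun o : Option ι => ud M (o.elim c' (Function.update x m c)))) =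
      Γ (fun h => cN N M (Function.update x m c h))
        (tN N M (Function.update x m c)) * Γ (fun h => cN N M (Function.update x m c' h))
        (tN N M (Function.update x m c')) := by
  have hsum : ∀ d : ℕ, ∑ h, ud M (Function.update x m d h) =
      ∑ h ∈ univ.erase m, ud M (x h) + ud M d := by
    intro d
    rw [← Finset.sum_erase_add univ _ (mem_univ m), Function.update_self]
    congr 1
    refine Finset.sum_congr rfl fun h hh => ?_
    rw [Function.update_of_ne (Finset.ne_of_mem_erase hh)]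
  have her : ∑ h ∈ univ.erase m, ud M (Function.update x m c h) =
      ∑ h ∈ univ.erase m, ud M (x h) :=
    Finset.sum_congr rfl fun h hh => by
      rw [Function.update_of_ne (Finset.ne_of_mem_erase hh)]
  have e1 : tN N M (Function.update x m c) =
      ⌊(N : ℝ) * ∑ h, ud M (Function.update x m c h)⌋₊ := rfl
  have e2 : tN N M (Function.update x m c') =
      ⌊(N : ℝ) * (∑ h ∈ univ.erase m, ud M (Function.update x m c h) + ud M c')⌋₊ := by
    unfold tN
    rw [her, hsum]
  have e3 : (fun h => cN N M (Function.update x m c' h)) =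
      Function.update (fun h => cN N M (Function.update x m c h)) m (cN N M c') := by
    funext h
    by_cases hh : h = m
    · subst hh
      rw [Function.update_self, Function.update_self]
    · rw [Function.update_of_ne hh, Function.update_of_ne hh, Function.update_of_ne hh]
  unfold c2K c2P
  simp only [Option.elim]
  rw [e1, e2, e3]
  rfl

/-- the sum of squares as a sum over tuples with one more entry -/
private theorem c2_expand {α : Type} [Fintype α] [DecidableEq α] (N : ℕ) (pr : α → ℕ) (m : ι)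
    (Γ : (ι → ℕ) → ℕ → ℝ) (M : ℕ) :
    ∑ x ∈ (piDD ι pr).filter (fun x => x m = 1),
      (∑ c ∈ DD pr, Γ (fun h => cN N M (Function.update x m c h))
        (tN N M (Function.update x m c)) / (c : ℝ)) ^ 2 / ∏ h, (x h : ℝ) =
    ∑ y ∈ piDD (Option ι) pr, c2K m Γ (c2P N m (fun o => ud M (y o))) *
      (∏ o, (y o : ℝ))⁻¹ := by
  classical
  have h1 : ∀ x ∈ (piDD ι pr).filter (fun x => x m = 1),
      (∑ c ∈ DD pr, Γ (fun h => cN N M (Function.update x m c h))
        (tN N M (Function.update x m c)) / (c : ℝ)) ^ 2 / ∏ h, (x h : ℝ) =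
      ∑ z ∈ DD pr ×ˢ DD pr,
        (Γ (fun h => cN N M (Function.update x m z.1 h))
          (tN N M (Function.update x m z.1)) / (z.1 : ℝ) *
        (Γ (fun h => cN N M (Function.update x m z.2 h))
          (tN N M (Function.update x m z.2)) / (z.2 : ℝ))) / ∏ h, (x h : ℝ) := by
    intro x _
    rw [pow_two, Finset.sum_mul_sum, ← Finset.sum_product', Finset.sum_div]
  rw [Finset.sum_congr rfl h1, ← Finset.sum_product']
  refine Finset.sum_nbij'
    (fun q => fun o : Option ι => o.elim q.2.2 (Function.update q.1 m q.2.1))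
    (fun y => (Function.update (fun h => y (some h)) m 1, y (some m), y none)) ?_ ?_ ?_ ?_ ?_
  · rintro ⟨x, c, c'⟩ hq
    simp only [Finset.mem_product, Finset.mem_filter, piDD, Fintype.mem_piFinset] at hq ⊢
    obtain ⟨⟨hx, hxm⟩, hc, hc'⟩ := hq
    intro o
    cases o with
    | none => exact hc'
    | some h =>
      show Function.update x m c h ∈ DD pr
      by_cases hh : h = m
      · subst hh
        rw [Function.update_self]
        exact hc
      · rw [Function.update_of_ne hh]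
        exact hx h
  · intro y hy
    simp only [Finset.mem_product, Finset.mem_filter, piDD, Fintype.mem_piFinset] at hy ⊢
    refine ⟨⟨fun h => ?_, Function.update_self _ _ _⟩, hy _, hy _⟩
    by_cases hh : h = m
    · subst hh
      rw [Function.update_self]
      exact cl2_one_mem pr
    · rw [Function.update_of_ne hh]
      exact hy _
  · rintro ⟨x, c, c'⟩ hq
    simp only [Finset.mem_product, Finset.mem_filter] at hq
    obtain ⟨⟨hx, hxm⟩, hc, hc'⟩ := hq
    simp only [Option.elim, Prod.mk.injEq]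
    refine ⟨?_, Function.update_self _ _ _, trivial⟩
    funext h
    by_cases hh : h = m
    · subst hh
      rw [Function.update_self, hxm]
    · rw [Function.update_of_ne hh, Function.update_of_ne hh]
  · intro y _
    funext o
    cases o with
    | none => rfl
    | some h =>
      show Function.update (Function.update (fun h => y (some h)) m 1) m (y (some m)) h =
        y (some h)
      by_cases hh : h = m
      · subst hh
        rw [Function.update_self]
      · rw [Function.update_of_ne hh, Function.update_of_ne hh]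
  · rintro ⟨x, c, c'⟩ hq
    simp only [Finset.mem_product, Finset.mem_filter] at hq
    obtain ⟨⟨hx, hxm⟩, hc, hc'⟩ := hq
    rw [c2_value N m Γ M x c c']
    have hp : ∏ o : Option ι, ((o.elim c' (Function.update x m c) : ℕ) : ℝ) =
        (c' : ℝ) * ((c : ℝ) * ∏ h, (x h : ℝ)) := by
      rw [Fintype.prod_option]
      simp only [Option.elim]
      congr 1
      rw [← Finset.mul_prod_erase univ _ (mem_univ m), Function.update_self,
        ← Finset.mul_prod_erase univ (fun h => (x h : ℝ)) (mem_univ m), hxm, Nat.cast_one,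
        one_mul]
      congr 1
      exact Finset.prod_congr rfl fun h hh => by
        rw [Function.update_of_ne (Finset.ne_of_mem_erase hh)]
    rw [hp]
    simp only [mul_inv, div_eq_mul_inv]
    ring

end algebra

theorem hC2 : StC2 := by
  classical
  intro hMul hOne hSWs hDDw ι _ _ m N Γ hN hΓ ε hε
  set Cs : ℝ := ∑ p ∈ c2I ι N, |c2K m Γ p| with hCs
  have hCs0 : 0 ≤ Cs := Finset.sum_nonneg fun _ _ => abs_nonneg _
  set K : ℕ := Fintype.card ι with hK
  obtain ⟨w₁, hw₁⟩ := exists_nat_gt (Cs * ((K + 1 : ℕ) * 5 * 7 ^ K) / ε)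
  refine ⟨w₁ + 1, fun w hw W hW => ?_⟩
  have hw1 : 1 ≤ w := by omega
  have hw0 : (1 : ℝ) ≤ w := by exact_mod_cast hw1
  obtain ⟨M₁, hM₁⟩ := hOne hSWs hDDw w hw1 W hW
  refine ⟨M₁, fun M hM => ?_⟩
  have hone := hM₁ M hM
  set S : ℝ := SS W M with hS
  have hS0 : 0 ≤ S := cl2_SS_nonneg W M
  have hδ0 : 0 ≤ 5 / (w : ℝ) * S := by positivity
  have hcell : ∀ p ∈ c2I ι N,
      |∑ y ∈ piDD (Option ι) (pw W M), (if (fun o => ud M (y o)) ∈ c2C N m p then
        (∏ o, (y o : ℝ))⁻¹ else 0) - S ^ (K + 1) * (volume (c2C N m p)).toReal| ≤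
      (K + 1 : ℕ) * 5 * 7 ^ K / w * S ^ (K + 1) := by
    intro p hp
    unfold c2I at hp
    simp only [Finset.mem_product, Fintype.mem_piFinset, Finset.mem_range] at hp
    have h1 := hMul (Pw W M) (Option ι) (pw W M) (ud M) S (5 / (w : ℝ) * S) hS0 hδ0 hone
      (c2C N m p) (c2_meas N m p) (fun x hx h => c2_sub N hN m p hp.1 hp.2.1 x hx h)
      (c2_section N m p)
    rw [Fintype.card_option, ← hK, Nat.add_sub_cancel] at h1
    refine h1.trans ?_
    have h2 : 2 * S + 5 / (w : ℝ) * S ≤ 7 * S := by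
      have : 5 / (w : ℝ) ≤ 5 := div_le_self (by norm_num) hw0
      nlinarith
    have h3 : (2 * S + 5 / (w : ℝ) * S) ^ K ≤ (7 * S) ^ K :=
      pow_le_pow_left₀ (by positivity) h2 K
    calc ((K + 1 : ℕ) : ℝ) * (5 / (w : ℝ) * S) * (2 * S + 5 / (w : ℝ) * S) ^ K
        ≤ ((K + 1 : ℕ) : ℝ) * (5 / (w : ℝ) * S) * (7 * S) ^ K :=
          mul_le_mul_of_nonneg_left h3 (by positivity)
      _ = (K + 1 : ℕ) * 5 * 7 ^ K / w * S ^ (K + 1) := by
          rw [mul_pow, pow_succ]
          ring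
  have hmain : ∑ y ∈ piDD (Option ι) (pw W M), c2K m Γ (c2P N m (fun o => ud M (y o))) *
      (∏ o, (y o : ℝ))⁻¹ = ∑ p ∈ c2I ι N, c2K m Γ p *
        ∑ y ∈ piDD (Option ι) (pw W M), (if (fun o => ud M (y o)) ∈ c2C N m p then
          (∏ o, (y o : ℝ))⁻¹ else 0) := by
    have h1 : ∀ y ∈ piDD (Option ι) (pw W M), c2K m Γ (c2P N m (fun o => ud M (y o))) *
        (∏ o, (y o : ℝ))⁻¹ = ∑ p ∈ c2I ι N, c2K m Γ p *
          (if (fun o => ud M (y o)) ∈ c2C N m p then (∏ o, (y o : ℝ))⁻¹ else 0) := by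
      intro y _
      rw [← c2_decomp N m Γ hΓ (fun o => ud M (y o)) (fun o => cl2_ud_nonneg M _),
        Finset.sum_mul]
      refine Finset.sum_congr rfl fun p _ => ?_
      split_ifs <;> ring
    rw [Finset.sum_congr rfl h1, Finset.sum_comm]
    exact Finset.sum_congr rfl fun p _ => by rw [Finset.mul_sum]
  have hvol : ∑ i ∈ Fintype.piFinset (fun _ : ι => range N), ∑ i' ∈ range N,
      ∑ t1 ∈ range N, ∑ t2 ∈ range N, Γ i t1 * Γ (Function.update i m i') t2 *
        (volume (c2 N m i i' t1 t2)).toReal =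
      ∑ p ∈ c2I ι N, c2K m Γ p * (volume (c2C N m p)).toReal := by
    unfold c2I
    simp only [Finset.sum_product]
    rfl
  have hexp := c2_expand N (pw W M) m Γ M
  rw [hvol]
  have hgoal : |∑ x ∈ (piDD ι (pw W M)).filter (fun x => x m = 1),
      (∑ c ∈ DD (pw W M), Γ (fun h => cN N M (Function.update x m c h))
        (tN N M (Function.update x m c)) / (c : ℝ)) ^ 2 / ∏ h, (x h : ℝ) -
      S ^ (K + 1) * ∑ p ∈ c2I ι N, c2K m Γ p * (volume (c2C N m p)).toReal| ≤
      ε * S ^ (K + 1) := by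
    rw [hexp, hmain, Finset.mul_sum, ← Finset.sum_sub_distrib]
    have h1 : ∀ p ∈ c2I ι N, c2K m Γ p *
        ∑ y ∈ piDD (Option ι) (pw W M), (if (fun o => ud M (y o)) ∈ c2C N m p then
          (∏ o, (y o : ℝ))⁻¹ else 0) - S ^ (K + 1) * (c2K m Γ p *
            (volume (c2C N m p)).toReal) =
        c2K m Γ p * (∑ y ∈ piDD (Option ι) (pw W M),
          (if (fun o => ud M (y o)) ∈ c2C N m p then (∏ o, (y o : ℝ))⁻¹ else 0) -
            S ^ (K + 1) * (volume (c2C N m p)).toReal) := fun p _ => by ring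
    rw [Finset.sum_congr rfl h1]
    refine (Finset.abs_sum_le_sum_abs _ _).trans ?_
    have h2 : ∀ p ∈ c2I ι N, |c2K m Γ p * (∑ y ∈ piDD (Option ι) (pw W M),
          (if (fun o => ud M (y o)) ∈ c2C N m p then (∏ o, (y o : ℝ))⁻¹ else 0) -
            S ^ (K + 1) * (volume (c2C N m p)).toReal)| ≤
        |c2K m Γ p| * ((K + 1 : ℕ) * 5 * 7 ^ K / w * S ^ (K + 1)) := by
      intro p hp
      rw [abs_mul]
      exact mul_le_mul_of_nonneg_left (hcell p hp) (abs_nonneg _)
    refine (Finset.sum_le_sum h2).trans ?_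
    rw [← Finset.sum_mul, ← hCs]
    have h3 : Cs * ((K + 1 : ℕ) * 5 * 7 ^ K / w) ≤ ε := by
      rw [div_lt_iff₀ hε] at hw₁
      have h4 : (w₁ : ℝ) ≤ w := by
        have : w₁ ≤ w := by omega
        exact_mod_cast this
      rw [← mul_div_assoc, div_le_iff₀ (by linarith)]
      nlinarith
    calc Cs * ((K + 1 : ℕ) * 5 * 7 ^ K / w * S ^ (K + 1))
        = Cs * ((K + 1 : ℕ) * 5 * 7 ^ K / w) * S ^ (K + 1) := by ring
      _ ≤ ε * S ^ (K + 1) := mul_le_mul_of_nonneg_right h3 (by positivity)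
  convert hgoal using 3

end Pool.Agent.Helper29.H2
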